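import Pool.Agent.Helper97.CB.All

/-!
# Covering density of convex bodies with a large difference body

Let `K` be a planar convex body with area `|K|`, and `θ(K)` its covering density (congruent copies).
The conjecture is `θ(K) ≤ 2π/√27 = 1.2091..` for all `K`; it is known for centrally symmetric bodies, that
is, when the difference body `K - K` has the smallest possible area `4 |K|`. The ratio `|K - K| / |K|` lies in
`[4, 6]`. The best bound known for all `K` is `1.2281772` (Ismailescu 1998).

THEOREM. If `|K - K| ≥ 4.56 |K|`, then `θ(K) ≤ 2π/√27`; if `|K - K| ≥ 4.25 |K|`, then
`θ(K) ≤ 1.22817`.

Proof. For a direction `e` let `c` be the longest chord, `W` the width and `D(s)` the distance of the two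
extreme chords of length `s` parallel to `e`. The covariogram `g(z) = |K ∩ (K - z)|` has the integral
`|K|²` and `g(r e) = ∫_r^c D`, so in polar coordinates there is a direction with
`∫ s² D(s) ds ≤ (|K|² / |K - K|) c²` (Crofton's formula for the third power of the chords). The hexagons of
`K` built from the two extreme chords of length `s` and, respectively, the lowest and highest point or a
longest chord have a pair of parallel equal sides and the areas `s (W + D(s)) / 2`, `D(s) (s + c) / 2`; the
plane is covered by two families of translates of them. `D` is concave with integral `|K|`; a weighted
Jensen inequality with the values of `D` at two points shows that one of the hexagons is large.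
-/

set_option autoImplicit false

open MeasureTheory Set Filter
open scoped Pointwise

namespace Pool.Agent.Results.MP_b21509_co.DifferenceBody

open Helper97.CB

theorem result (K : Set ℂ) (hK : IsBody K) :
    ((456 / 100 : ℝ) * area K ≤ area (K - K) →
      theta K ≤ ENNReal.ofReal (2 * Real.pi / Real.sqrt 27)) ∧
    ((425 / 100 : ℝ) * area K ≤ area (K - K) →
      theta K ≤ ENNReal.ofReal (122817 / 100000)) :=
  ⟨fun h => fi2_conj K hK h, fun h => fi2_rec K hK h⟩

end Pool.Agent.Results.MP_b21509_co.DifferenceBody
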