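import Pool.Agent.Helper56.RC.T_RS99
import Pool.Agent.Helper49.RC.Final

/-!
# A new upper bound for the covering density of all planar convex bodies

The covering density `θ(K)` of a planar convex body `K` (congruent copies) is conjectured to be at most
`2π/√27 = 1.2092..`, the density of the thinnest covering of the plane by circles. The best bound known for all planar
convex bodies is `1.2281772` (Ismailescu 1998), after `1.2376` (W. Kuperberg 1989).

THEOREM. Every planar convex body `K` satisfies `θ(K) ≤ (100/99) (2π/√27) = 1.2214..`.

Proof. (1) A hexagon inscribed in `K` with two parallel sides of equal length gives a covering of the plane by
translates of `K` and `-K` of density `|K| / |hexagon|` (Kuperberg's double lattices). If all hexagons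
`x₁ .. x₆` of `K` with `x₁ - x₂ + x₄ - x₅ = 0` have area at most `3√3 M`, then for every direction `t` there are an affine
regular hexagon in the direction `t` (a point `β(t)` of the hyperbolic plane) and a translation vector `v(t)` of its
middle diagonals such that the mean of the support function of `K` at the six sides of the hexagon is small, by a
continuity and degree argument (a Brouwer type theorem) in the plane of the translation vectors, and convexity in the
shape `β`.
(2) Integration over all directions gives a convex body `C` with `V(K, C)` small, and Minkowski's inequality (with the
second harmonic removed by an affine normalisation of `K`) reduces the bound to the inequality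
`|C|/π - 2 Σ_{n ≥ 3} .. ≥ 9 κ ⟨√(1 - |β|²)⟩²` for an explicit form in the functions `β, v` of the direction
(`Rs κ` in the files, `κ = 99/100`).
(3) This inequality is proved by Fourier analysis: exact formulas for the interaction of the three edge families, a lower
bound of the interaction of the two moving families by an arrangement with an explicit small rotation (three
choices of two numbers according to the size of the critical harmonic), and finitely many numerical inequalities.
-/

set_option autoImplicit false

open MeasureTheory Set Metric

namespace Pool.Agent.Results.MP_b21509_co.RecordBound

open Helper97.CB

theorem result (K : Set ℂ) (hK : IsBody K) :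
    theta K ≤ ENNReal.ofReal (100 / 99 * (2 * Real.pi / Real.sqrt 27)) := by
  have h := Helper49.RC.rec_of (99 / 100) (by norm_num) Helper56.RC.rs99 K hK
  have e : 2 * Real.pi / Real.sqrt 27 / (99 / 100) = 100 / 99 * (2 * Real.pi / Real.sqrt 27) := by ring
  rwa [e] at h

end Pool.Agent.Results.MP_b21509_co.RecordBound
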