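import Pool.Agent.Helper27.CB.Fin

/-!
# Covering density of convex bodies whose difference body has a small volume product

Let `K` be a planar convex body and `D = K - K` its difference body, `D°` the polar body. The volume product
`|D| |D°|` does not change under affine maps of `K`; it lies in `[8, π ^ 2]`, it is `8` if `D` is a parallelogram, `9` if
`D` is an affinely regular hexagon, and `π ^ 2 = 9.869..` if and only if `D` is an ellipse (Mahler, Blaschke).

THEOREM. If `|D| |D°| ≤ 9.09`, then `θ(K) ≤ 2π/√27`, the conjectured bound of the covering density of planar convex
bodies. If `|D| |D°| ≤ 9.5`, then `θ(K) ≤ 1.2252` (the best bound known for all bodies is `1.2281772`).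
Both are special cases of the inequality `mainE` (with the function `R2`) in `Pool/Agent/Helper27/CB/Fin.lean`, which
also takes the ratio `|D| / |K|` into account.

Proof. In every direction `e`, let `c` be the longest chord, `W` the width and `D(s)` the distance of the two extreme
chords of length `s`. The hexagons of `K` spanned by the two extreme chords of length `s` and the lowest and the
highest point, or by one extreme chord of length `s` and a longest chord, have a pair of parallel equal sides or are
contained in such hexagons, and tile the plane together with their reflections (double lattices). So
`s (W + D(s))` and `D(s) (s + c)` are at most `2 |K| / θ`. `D` is concave with integral `|K|`, and Jensen's inequality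
at two nodes bounds `∫ s² D(s) ds`, the integral of the cubes of the chords, by `c²` and `c³ W`. Integration over all
directions: the left side gives `|K|²` (Crofton's formula), `c²` gives `|D|`, and `c³ W` gives the integral over
`D` of the norm of the polar body, which is at least `(2/3) |D|^(3/2) |D°|^(-1/2)`, by comparison with a disc.
-/

set_option autoImplicit false

open MeasureTheory Set
open scoped ENNReal Pointwise

namespace Pool.Agent.Results.MP_b21509_co.VolumeProduct

open Pool.Agent.Helper27.CB

theorem result (K : Set E2) (hc : Convex ℝ K) (hk : IsCompact K) (hi : (interior K).Nonempty) :
    (area (K - K) * area (polarBody (K - K)) ≤ 909 / 100 →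
      theta K ≤ ENNReal.ofReal (2 * Real.pi / Real.sqrt 27)) ∧
    (area (K - K) * area (polarBody (K - K)) ≤ 95 / 10 →
      theta K ≤ ENNReal.ofReal (12252 / 10000)) :=
  ⟨(final K hc hk hi).1, (final K hc hk hi).2.1⟩

end Pool.Agent.Results.MP_b21509_co.VolumeProduct
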